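import Mathlib
import Pool.Agent.Lib.MP_45c2e2_co.Real

/-!
A set without five coplanar points contains a subset without three collinear points and with at
least half of the points.
-/

set_option autoImplicit false

namespace Pool.Agent.MP_45c2e2_co.Gr

open Module Pool.Agent.MP_45c2e2_co

lemma coplanar_of_two {d : ℕ} (S : Set (Fin d → ℝ)) (p v w : Fin d → ℝ)
    (h : ∀ x ∈ S, ∃ a b : ℝ, x = p + a • v + b • w) : Coplanar ℝ S := by
  rw [coplanar_iff']
  have hle : vectorSpan ℝ S ≤ Submodule.span ℝ {v, w} := by
    rw [vectorSpan_def, Submodule.span_le]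
    rintro _ ⟨x, hx, z, hz, rfl⟩
    obtain ⟨a, b, rfl⟩ := h x hx
    obtain ⟨a', b', rfl⟩ := h z hz
    rw [SetLike.mem_coe, Submodule.mem_span_pair]
    refine ⟨a - a', b - b', ?_⟩
    simp only [vsub_eq_sub, sub_smul]
    abel
  refine (Submodule.finrank_mono hle).trans ?_
  refine (finrank_span_le_card _).trans ?_
  rw [Set.toFinset_insert, Set.toFinset_singleton]
  exact Finset.card_le_two

/-- Two collinear triples of a set without five coplanar points which share a point. -/
lemma no_share {d : ℕ} (A : Finset (Fin d → ℝ)) (hA : NoFiveCoplanar A) (h5 : 5 ≤ A.card)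
    (p q q' y y' : Fin d → ℝ) (hp : p ∈ A) (hq : q ∈ A) (hq' : q' ∈ A) (hy : y ∈ A) (hy' : y' ∈ A)
    (hpq : q ≠ p) (hpq' : q' ≠ p) (hyp : y ≠ p) (hyp' : y' ≠ p) (hyy : y ≠ y')
    (hyq : y ≠ q) (hyq' : y ≠ q') (hy'q : y' ≠ q) (hy'q' : y' ≠ q')
    (h1 : Collinear ℝ {y, p, q}) (h2 : Collinear ℝ {y', p, q'}) : False := by
  classical
  rw [collinear_iff_of_mem (p₀ := p) (by simp)] at h1 h2
  obtain ⟨v, hv⟩ := h1
  obtain ⟨w, hw⟩ := h2
  obtain ⟨a, ha⟩ := hv y (by simp)
  obtain ⟨b, hb⟩ := hv q (by simp)
  obtain ⟨a', ha'⟩ := hw y' (by simp)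
  obtain ⟨b', hb'⟩ := hw q' (by simp)
  simp only [vadd_eq_add] at ha hb ha' hb'
  by_cases hqq : q = q'
  · -- four points on one line and a fifth point
    subst hqq
    have hcard : ({p, q, y, y'} : Finset (Fin d → ℝ)).card ≤ 4 := Finset.card_le_four
    obtain ⟨z, hz, hzn⟩ : ∃ z ∈ A, z ∉ ({p, q, y, y'} : Finset (Fin d → ℝ)) := by
      by_contra hcon
      push Not at hcon
      have := Finset.card_le_card (fun z hz => hcon z hz : A ⊆ ({p, q, y, y'} : Finset _))
      omega
    simp only [Finset.mem_insert, Finset.mem_singleton, not_or] at hzn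
    obtain ⟨z1, z2, z3, z4⟩ := hzn
    have hb0 : b' ≠ 0 := by
      rintro rfl
      apply hpq'
      rw [hb']; simp
    have hw' : w = (b / b') • v := by
      have h3 : b • v = b' • w := by
        have := hb.symm.trans hb'
        exact add_right_cancel this
      rw [div_eq_inv_mul, mul_smul, h3, smul_smul, inv_mul_cancel₀ hb0, one_smul]
    refine hA {p, q, y, y', z} ?_ ?_ ?_
    · intro x hx
      simp only [Finset.mem_insert, Finset.mem_singleton] at hx
      rcases hx with rfl | rfl | rfl | rfl | rfl <;> assumption
    · rw [Finset.card_insert_of_notMem, Finset.card_insert_of_notMem,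
        Finset.card_insert_of_notMem, Finset.card_insert_of_notMem, Finset.card_singleton]
      · simp only [Finset.mem_singleton]; exact fun h => z4 h.symm
      · simp only [Finset.mem_insert, Finset.mem_singleton, not_or]
        exact ⟨hyy, fun h => z3 h.symm⟩
      · simp only [Finset.mem_insert, Finset.mem_singleton, not_or]
        exact ⟨fun h => hyq h.symm, fun h => hy'q h.symm, fun h => z2 h.symm⟩
      · simp only [Finset.mem_insert, Finset.mem_singleton, not_or]
        exact ⟨fun h => hpq h.symm, fun h => hyp h.symm, fun h => hyp' h.symm, fun h => z1 h.symm⟩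
    · refine coplanar_of_two _ p v (z - p) ?_
      intro x hx
      simp only [Finset.coe_insert, Finset.coe_singleton, Set.mem_insert_iff,
        Set.mem_singleton_iff] at hx
      rcases hx with rfl | rfl | rfl | rfl | rfl
      · exact ⟨0, 0, by simp⟩
      · exact ⟨b, 0, by rw [zero_smul, add_zero, add_comm]; exact hb⟩
      · exact ⟨a, 0, by rw [zero_smul, add_zero, add_comm]; exact ha⟩
      · refine ⟨a' * (b / b'), 0, ?_⟩
        rw [zero_smul, add_zero, add_comm, mul_smul, ← hw']
        exact ha'
      · exact ⟨0, 1, by simp⟩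
  · refine hA {p, q, q', y, y'} ?_ ?_ ?_
    · intro x hx
      simp only [Finset.mem_insert, Finset.mem_singleton] at hx
      rcases hx with rfl | rfl | rfl | rfl | rfl <;> assumption
    · rw [Finset.card_insert_of_notMem, Finset.card_insert_of_notMem,
        Finset.card_insert_of_notMem, Finset.card_insert_of_notMem, Finset.card_singleton]
      · simp only [Finset.mem_singleton]; exact hyy
      · simp only [Finset.mem_insert, Finset.mem_singleton, not_or]
        exact ⟨fun h => hyq' h.symm, fun h => hy'q' h.symm⟩
      · simp only [Finset.mem_insert, Finset.mem_singleton, not_or]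
        exact ⟨hqq, fun h => hyq h.symm, fun h => hy'q h.symm⟩
      · simp only [Finset.mem_insert, Finset.mem_singleton, not_or]
        exact ⟨fun h => hpq h.symm, fun h => hpq' h.symm, fun h => hyp h.symm,
          fun h => hyp' h.symm⟩
    · refine coplanar_of_two _ p v w ?_
      intro x hx
      simp only [Finset.coe_insert, Finset.coe_singleton, Set.mem_insert_iff,
        Set.mem_singleton_iff] at hx
      rcases hx with rfl | rfl | rfl | rfl | rfl
      · exact ⟨0, 0, by simp⟩
      · exact ⟨b, 0, by rw [zero_smul, add_zero, add_comm]; exact hb⟩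
      · exact ⟨0, b', by rw [zero_smul, add_zero, add_comm]; exact hb'⟩
      · exact ⟨a, 0, by rw [zero_smul, add_zero, add_comm]; exact ha⟩
      · exact ⟨0, a', by rw [zero_smul, add_zero, add_comm]; exact ha'⟩

/-- Every set without five coplanar points has a subset with no three collinear points and with
at least half of the points. -/
lemma half_good {d : ℕ} (A : Finset (Fin d → ℝ)) (hA : NoFiveCoplanar A) :
    ∃ A' : Finset (Fin d → ℝ), A' ⊆ A ∧ NoThreeCollinear A' ∧ A.card ≤ 2 * A'.card := by
  classical
  rcases Nat.lt_or_ge A.card 5 with h4 | h5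
  · obtain ⟨B, hB, hc⟩ := Finset.exists_subset_card_eq (Nat.min_le_left A.card 2)
    refine ⟨B, hB, ?_, by omega⟩
    intro S hS h3
    have := Finset.card_le_card hS
    omega
  · let F := A.powerset.filter (fun B => NoThreeCollinear B)
    have hF : F.Nonempty := by
      refine ⟨∅, Finset.mem_filter.2 ⟨Finset.empty_mem_powerset A, ?_⟩⟩
      intro S hS h3
      rw [Finset.subset_empty] at hS
      rw [hS] at h3
      simp at h3
    obtain ⟨B, hB, hmax⟩ := F.exists_max_image Finset.card hF
    rw [Finset.mem_filter, Finset.mem_powerset] at hB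
    obtain ⟨hBA, hB3⟩ := hB
    refine ⟨B, hBA, hB3, ?_⟩
    have key : ∀ y ∈ A \ B, ∃ p ∈ B, ∃ q ∈ B, q ≠ p ∧ Collinear ℝ {y, p, q} := by
      intro y hy
      rw [Finset.mem_sdiff] at hy
      by_contra hcon
      push Not at hcon
      have hins : NoThreeCollinear (insert y B) := by
        intro S hS h3 hcol
        by_cases hyS : y ∈ S
        · obtain ⟨p, q, hpq, he⟩ := Finset.card_eq_two.1
            (by rw [Finset.card_erase_of_mem hyS, h3] : (S.erase y).card = 2)
          have hS' : S = {y, p, q} := by rw [← Finset.insert_erase hyS, he]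
          have hp : p ∈ B := by
            have h6 : p ∈ S.erase y := by rw [he]; simp
            rw [Finset.mem_erase] at h6
            exact (Finset.mem_insert.1 (hS h6.2)).resolve_left h6.1
          have hq : q ∈ B := by
            have h6 : q ∈ S.erase y := by rw [he]; simp
            rw [Finset.mem_erase] at h6
            exact (Finset.mem_insert.1 (hS h6.2)).resolve_left h6.1
          refine hcon p hp q hq (Ne.symm hpq) ?_
          rw [hS'] at hcol
          simpa using hcol
        · refine hB3 S ?_ h3 hcol
          intro x hx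
          rcases Finset.mem_insert.1 (hS hx) with rfl | h
          · exact absurd hx hyS
          · exact h
      have h7 := hmax (insert y B) (Finset.mem_filter.2 ⟨Finset.mem_powerset.2
        (Finset.insert_subset hy.1 hBA), hins⟩)
      rw [Finset.card_insert_of_notMem hy.2] at h7
      omega
    choose! f hf g hg hfg hcol using key
    have hinj : Set.InjOn f (A \ B : Finset _) := by
      intro y hy y' hy' he
      by_contra hne
      have hy1 := Finset.mem_sdiff.1 (Finset.mem_coe.1 hy)
      have hy2 := Finset.mem_sdiff.1 (Finset.mem_coe.1 hy')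
      have a1 := hf y hy
      have a2 := hg y hy
      have b1 := hf y' hy'
      have b2 := hg y' hy'
      have c1 := hcol y hy
      have c2 := hcol y' hy'
      rw [← he] at c2
      have n1 := hfg y hy
      have n2 := hfg y' hy'
      rw [← he] at n2
      refine no_share A hA h5 (f y) (g y) (g y') y y' (hBA a1) (hBA a2) (hBA b2) hy1.1 hy2.1
        n1 n2 ?_ ?_ hne ?_ ?_ ?_ ?_ c1 c2
      · intro h; exact hy1.2 (h ▸ a1)
      · intro h; exact hy2.2 (by rw [h]; exact a1)
      · intro h; exact hy1.2 (by rw [h]; exact a2)
      · intro h; exact hy1.2 (by rw [h]; exact b2)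
      · intro h; exact hy2.2 (by rw [h]; exact a2)
      · intro h; exact hy2.2 (by rw [h]; exact b2)
    have h8 := Finset.card_le_card_of_injOn f (fun y hy => hf y hy) hinj
    have h9 := Finset.card_sdiff_add_card_eq_card hBA
    omega

end Pool.Agent.MP_45c2e2_co.Gr
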