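import Mathlib
import Pool.Agent.Lib.MP_45c2e2_co.Gr.Half
import Pool.Agent.Lib.MP_45c2e2_co.TT.Final

/-!
Consequences for functions `r` which satisfy a product inequality: the growth exponents converge
after division by the dimension.
-/

set_option autoImplicit false

namespace Pool.Agent.MP_45c2e2_co.Gr

open Filter Topology

/-- The exponents `a` for which `r_d(N) ≥ c N ^ a` for some `c > 0` and all `N ≥ 1`. -/
def Exps (r : ℕ → ℕ → ℕ) (d : ℕ) : Set ℝ :=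
  {a : ℝ | ∃ c : ℝ, 0 < c ∧ ∀ N : ℕ, 1 ≤ N → c * (N : ℝ) ^ a ≤ (r d N : ℝ)}

section

variable (r : ℕ → ℕ → ℕ)

lemma zero_mem (h1 : ∀ d N, 1 ≤ N → 1 ≤ r d N) (d : ℕ) : (0 : ℝ) ∈ Exps r d := by
  refine ⟨1, one_pos, fun N hN => ?_⟩
  rw [Real.rpow_zero, mul_one]
  exact_mod_cast h1 d N hN

/-- A lower bound `N ^ a` for all large `N` makes `a` an exponent. -/
lemma ev_mem (h1 : ∀ d N, 1 ≤ N → 1 ≤ r d N) (d : ℕ) (a : ℝ) (N₀ : ℕ)
    (h : ∀ N : ℕ, N₀ ≤ N → (N : ℝ) ^ a ≤ (r d N : ℝ)) : a ∈ Exps r d := by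
  have hM : (1 : ℝ) ≤ (N₀ : ℝ) + 1 := by
    have : (0 : ℝ) ≤ N₀ := Nat.cast_nonneg _
    linarith
  have hK : (1 : ℝ) ≤ ((N₀ : ℝ) + 1) ^ |a| := Real.one_le_rpow hM (abs_nonneg a)
  refine ⟨(((N₀ : ℝ) + 1) ^ |a|)⁻¹, by positivity, fun N hN => ?_⟩
  have hN1 : (1 : ℝ) ≤ N := by exact_mod_cast hN
  have hNa : (0 : ℝ) ≤ (N : ℝ) ^ a := by positivity
  rcases le_or_gt N₀ N with hle | hlt
  · refine le_trans ?_ (h N hle)
    exact mul_le_of_le_one_left hNa (inv_le_one_of_one_le₀ hK)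
  · have h2 : (N : ℝ) ^ a ≤ ((N₀ : ℝ) + 1) ^ |a| := by
      calc (N : ℝ) ^ a ≤ (N : ℝ) ^ |a| := Real.rpow_le_rpow_of_exponent_le hN1 (le_abs_self a)
        _ ≤ ((N₀ : ℝ) + 1) ^ |a| := by
          refine Real.rpow_le_rpow (by linarith) ?_ (abs_nonneg a)
          have : (N : ℝ) ≤ N₀ := by exact_mod_cast hlt.le
          linarith
    have h3 : (((N₀ : ℝ) + 1) ^ |a|)⁻¹ * (N : ℝ) ^ a ≤ 1 := by
      rw [inv_mul_le_iff₀ (by positivity), mul_one]
      exact h2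
    exact h3.trans (by exact_mod_cast h1 d N hN)

lemma le_dim (hd : ∀ d N, r d N ≤ N ^ d) (d : ℕ) (a : ℝ) (ha : a ∈ Exps r d) : a ≤ d := by
  obtain ⟨c, hc, h⟩ := ha
  by_contra hlt
  push Not at hlt
  have hpos : 0 < a - d := by linarith
  have ht : Tendsto (fun N : ℕ => c * (N : ℝ) ^ (a - d)) atTop atTop :=
    ((tendsto_rpow_atTop hpos).comp tendsto_natCast_atTop_atTop).const_mul_atTop hc
  obtain ⟨N, hN1, hN⟩ := ((eventually_ge_atTop 1).and (ht.eventually (eventually_gt_atTop 1))).exists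
  have hNpos : (0 : ℝ) < N := by exact_mod_cast hN1
  have h2 := h N hN1
  have h3 : (r d N : ℝ) ≤ (N : ℝ) ^ (d : ℝ) := by
    rw [Real.rpow_natCast]
    exact_mod_cast hd d N
  have h4 : c * (N : ℝ) ^ a = c * (N : ℝ) ^ (a - d) * (N : ℝ) ^ (d : ℝ) := by
    rw [mul_assoc, ← Real.rpow_add hNpos]
    ring_nf
  have h5 : (0 : ℝ) < (N : ℝ) ^ (d : ℝ) := Real.rpow_pos_of_pos hNpos _
  have h6 : (N : ℝ) ^ (d : ℝ) < c * (N : ℝ) ^ (a - d) * (N : ℝ) ^ (d : ℝ) := by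
    nlinarith
  linarith [h4 ▸ h2]

lemma bdd (hd : ∀ d N, r d N ≤ N ^ d) (d : ℕ) : BddAbove (Exps r d) :=
  ⟨d, fun a ha => le_dim r hd d a ha⟩

lemma add_mem (hm : ∀ m n N, r m N * r n N ≤ 4 * r (m + n) N) (m n : ℕ) (a b : ℝ)
    (ha : a ∈ Exps r m) (hb : b ∈ Exps r n) : a + b ∈ Exps r (m + n) := by
  obtain ⟨c, hc, h⟩ := ha
  obtain ⟨c', hc', h'⟩ := hb
  refine ⟨c * c' / 4, by positivity, fun N hN => ?_⟩
  have hNpos : (0 : ℝ) < N := by exact_mod_cast hN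
  have h1 := h N hN
  have h2 := h' N hN
  have h3 : (r m N : ℝ) * r n N ≤ 4 * r (m + n) N := by exact_mod_cast hm m n N
  have h4 : c * (N : ℝ) ^ a * (c' * (N : ℝ) ^ b) ≤ (r m N : ℝ) * r n N :=
    mul_le_mul h1 h2 (by positivity) (by positivity)
  have h5 : c * (N : ℝ) ^ a * (c' * (N : ℝ) ^ b) = c * c' * (N : ℝ) ^ (a + b) := by
    rw [Real.rpow_add hNpos]; ring
  rw [h5] at h4
  have h6 : c * c' / 4 * (N : ℝ) ^ (a + b) = c * c' * (N : ℝ) ^ (a + b) / 4 := by ring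
  rw [h6]
  linarith

lemma superadd (h1 : ∀ d N, 1 ≤ N → 1 ≤ r d N) (hd : ∀ d N, r d N ≤ N ^ d)
    (hm : ∀ m n N, r m N * r n N ≤ 4 * r (m + n) N) (m n : ℕ) :
    sSup (Exps r m) + sSup (Exps r n) ≤ sSup (Exps r (m + n)) := by
  have hb := bdd r hd (m + n)
  have : sSup (Exps r n) ≤ sSup (Exps r (m + n)) - sSup (Exps r m) := by
    refine csSup_le ⟨0, zero_mem r h1 n⟩ (fun b hb' => ?_)
    have : sSup (Exps r m) ≤ sSup (Exps r (m + n)) - b := by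
      refine csSup_le ⟨0, zero_mem r h1 m⟩ (fun a ha => ?_)
      have := le_csSup hb (add_mem r hm m n a b ha hb')
      linarith
    linarith
  linarith

lemma limit (h1 : ∀ d N, 1 ≤ N → 1 ≤ r d N) (hd : ∀ d N, r d N ≤ N ^ d)
    (hm : ∀ m n N, r m N * r n N ≤ 4 * r (m + n) N)
    (hl : ∀ d : ℕ, 2 * (d : ℝ) / 3 - 62 ∈ Exps r d) :
    ∃ κ : ℝ, 2 / 3 ≤ κ ∧ κ ≤ 1 ∧
      Tendsto (fun d : ℕ => sSup (Exps r d) / d) atTop (𝓝 κ) ∧
      ∀ d : ℕ, sSup (Exps r d) ≤ κ * d := by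
  have hsub : Subadditive (fun d => - sSup (Exps r d)) := by
    intro m n
    have := superadd r h1 hd hm m n
    simp only
    linarith
  have hle : ∀ d : ℕ, sSup (Exps r d) ≤ d := fun d =>
    csSup_le ⟨0, zero_mem r h1 d⟩ (fun a ha => le_dim r hd d a ha)
  have hbdd : BddBelow (Set.range fun n : ℕ => (- sSup (Exps r n)) / (n : ℝ)) := by
    refine ⟨-1, ?_⟩
    rintro _ ⟨n, rfl⟩
    simp only
    rcases Nat.eq_zero_or_pos n with rfl | hn
    · simp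
    · have hn' : (0 : ℝ) < n := by exact_mod_cast hn
      rw [le_div_iff₀ hn']
      linarith [hle n]
  have ht := hsub.tendsto_lim hbdd
  have ht' : Tendsto (fun d : ℕ => sSup (Exps r d) / d) atTop (𝓝 (- hsub.lim)) := by
    have := ht.neg
    refine this.congr (fun d => ?_)
    rw [neg_div, neg_neg]
  refine ⟨- hsub.lim, ?_, ?_, ht', ?_⟩
  · have hlim : Tendsto (fun d : ℕ => (2 : ℝ) / 3 - 62 / (d : ℝ)) atTop (𝓝 (2 / 3 - 0)) :=
      tendsto_const_nhds.sub (tendsto_const_div_atTop_nhds_zero_nat 62)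
    rw [sub_zero] at hlim
    refine le_of_tendsto_of_tendsto hlim ht' ?_
    filter_upwards [eventually_ge_atTop 1] with d hd1
    have hd' : (0 : ℝ) < d := by exact_mod_cast hd1
    rw [le_div_iff₀ hd']
    have h2 := le_csSup (bdd r hd d) (hl d)
    have h3 : (2 / 3 - 62 / (d : ℝ)) * d = 2 * d / 3 - 62 := by
      field_simp
    rw [h3]
    exact h2
  · refine le_of_tendsto ht' ?_
    filter_upwards [eventually_ge_atTop 1] with d hd1
    have hd' : (0 : ℝ) < d := by exact_mod_cast hd1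
    rw [div_le_one hd']
    exact hle d
  · intro d
    rcases Nat.eq_zero_or_pos d with rfl | hd1
    · have := hle 0
      simpa using this
    · have hd' : (0 : ℝ) < d := by exact_mod_cast hd1
      have h2 := hsub.lim_le_div hbdd (by omega : d ≠ 0)
      rw [le_div_iff₀ hd'] at h2
      linarith

end

end Pool.Agent.MP_45c2e2_co.Gr
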